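import Pool.Agent.WAX.Stmts
import Pool.Agent.Helper34_K9.INX

/-!
# Squad WAX, rows LTX and TXA
-/

open scoped BigOperators

noncomputable section

namespace Pool.Agent.PP.TX.H58

open Pool.Agent.Helper51_AWC Pool.Agent.Helper79_WRA Pool.Agent.PP Pool.Agent.PP.KF
open Pool.Agent.PP.K9 Pool.Agent.PP.K9.H97 Pool.Agent.PP.H75 Pool.Agent.PP.T3 Pool.Agent.PP.T2
open Pool.Agent.PP.T5 Pool.Agent.PP.TB Pool.Agent.PP.TV Pool.Agent.PP.TX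
open Pool.Agent.PP.T8 (Rv Fq Fr Ei Hk Rk Fd In)

attribute [local instance] Ideal.Quotient.field

theorem ix_of {ℓ : ℕ} [Fact ℓ.Prime] {M : Ideal (integralClosure ℤ ℂ)} [M.IsMaximal]
    (hM : (ℓ : integralClosure ℤ ℂ) ∈ M) {G : Type} [Group G] [Finite G] {e : G → FF M}
    {V : Subgroup G} {γ : G → FF M} (hL : Ld ℓ e V γ) : ¬ ℓ ∣ ix V γ :=
  K9.H34.inx ℓ M hM G e hL.blk V hL.tp hL.ab γ hL.gam.supp hL.gam.blk hL.und

/-- Row LTX. -/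
theorem ltx (lnw : LnwStmt) (ctx : CtxStmt) (cpv : TV.CpvStmt) (ln0 : Ln0Stmt) (lxa : LxaStmt)
    (lxb : LxbStmt) (lxc : LxcStmt) (lfr : T8.LfrStmt) : LtxStmt := by
  intro ℓ hℓ M _ hM G _ _ e V γ hL a hT
  have hF : GoodF ℓ (FF M) := H50.fld ℓ Fact.out M hM
  obtain ⟨A, iG, iF, f, V', γ', hL', hln, hfq, hZ⟩ := lnw ℓ M hM G e V γ hL
  have hT' := ctx ℓ (FF M) hF G A e V γ f V' γ' hL hL' (ix_of hM hL) hfq a hT
  obtain ⟨hV1, hV2, hV3⟩ := cpv ℓ (FF M) hF A f V' γ' hL' (ix_of hM hL')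
  have hVc : Vc V' γ' = V' := by
    refine le_antisymm hV1 fun v hv => ?_
    obtain ⟨z, hz, w, hw, rfl⟩ := hV3 v hv
    rw [hZ, Subgroup.mem_bot] at hz
    rw [hz, one_mul]
    exact hw
  have hℓ0 : 0 < ℓ := hℓ.out.pos
  rw [← hln]
  by_cases hV : V' = ⊥
  · exact (ln0 ℓ M hM A f V' γ' hL' hV).trans (Nat.one_le_pow _ _ hℓ0)
  rcases hT' with ⟨h2, hFc, hix⟩ | ⟨r, hR, h⟩
  · refine (lfr ℓ M hM h2 A f V' γ' hL' hV ?_).trans hix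
    intro t ht v hv hv1 hc
    exact hFc t ht v (by rw [hVc]; exact hv) hv1 hc
  · rw [hVc] at hR
    rcases h with ⟨h1, h3⟩ | ⟨h2, h3, h4⟩ | h
    · exact (lxa ℓ M hM A f V' γ' hL' hZ h1 r hR).trans (Nat.pow_le_pow_right hℓ0 h3)
    · exact lxb ℓ M hM h2 A f V' γ' hL' h3 r a hR h4
    · exact (lxc ℓ M hM A f V' γ' hL' r hR).trans (Nat.pow_le_pow_right hℓ0 h)

/-- Row TXA. -/
theorem txa (gen : GenStmt) (ctx : CtxStmt) (ltx : LtxStmt) : TxaStmt := by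
  intro ℓ hℓ M _ hM G _ _ e V γ hL a ha hexp hT
  have hF : GoodF ℓ (FF M) := H50.fld ℓ Fact.out M hM
  refine gen ℓ M hM a ha (fun G _ _ V γ => Tx ℓ a V γ) ?_ ?_ G e V γ hL hexp hT
  · intro G A _ _ _ _ e V γ f V' γ' hL hL' hfq _ _ hT
    exact ctx ℓ (FF M) hF G A e V γ f V' γ' hL hL' (ix_of hM hL) hfq a hT
  · intro G _ _ e V γ hL _ hT
    exact ltx ℓ M hM G e V γ hL a hT

end Pool.Agent.PP.TX.H58
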